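import Pool.Agent.H18.HIT.Targets

/-!
# Growth of the Hilbert function in codimension two
-/

open MvPolynomial
open Pool.Agent.H18.HIT

namespace Pool.Agent.H77.HIT

/-! ### binomial coefficients -/

/-- the number of monomials of degree at most `t` in `N` variables -/
def hh (N t : ℕ) : ℕ := (t + N).choose N

theorem hh_zero (t : ℕ) : hh 0 t = 1 := by simp [hh]

theorem hh_succ (M s : ℕ) : hh (M + 1) (s + 1) = hh (M + 1) s + hh M (s + 1) := by
  have h1 : (s + 1 + (M + 1)).choose (M + 1) =
      (s + 1 + M).choose M + (s + 1 + M).choose (M + 1) := Nat.choose_succ_succ _ _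
  have h2 : s + (M + 1) = s + 1 + M := by omega
  rw [hh, hh, hh, h1, h2, Nat.add_comm]

theorem hh_le (M s : ℕ) : hh M s ≤ (s + 1) ^ M := by
  induction M with
  | zero => rw [hh_zero, pow_zero]
  | succ M ih =>
    have h1 : (s + M + 1) * (s + M).choose M = (s + M + 1).choose (M + 1) * (M + 1) :=
      Nat.add_one_mul_choose_eq (s + M) M
    have h2 : hh (M + 1) s * (M + 1) ≤ (s + 1) ^ (M + 1) * (M + 1) := by
      calc hh (M + 1) s * (M + 1) = (s + M + 1) * hh M s := h1.symm
        _ ≤ ((s + 1) * (M + 1)) * (s + 1) ^ M := by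
          apply Nat.mul_le_mul _ ih
          nlinarith
        _ = (s + 1) ^ (M + 1) * (M + 1) := by ring
    exact Nat.le_of_mul_le_mul_right h2 (Nat.succ_pos M)

theorem hh_mono (N : ℕ) {s t : ℕ} (h : s ≤ t) : hh N s ≤ hh N t :=
  Nat.choose_le_choose N (Nat.add_le_add_right h N)

theorem hh_diff (M s b : ℕ) : hh M (s + b) ≤ hh M s + b * (s + b + 1) ^ (M - 1) := by
  rcases M with _ | M
  · rw [hh_zero, hh_zero]
    omega
  · rw [Nat.add_sub_cancel]
    induction b with
    | zero => simp
    | succ b ih =>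
      have h1 : hh (M + 1) (s + (b + 1)) = hh (M + 1) (s + b) + hh M (s + b + 1) :=
        hh_succ M (s + b)
      have h2 : hh M (s + b + 1) ≤ (s + b + 1 + 1) ^ M := hh_le M (s + b + 1)
      have h3 : (s + b + 1) ^ M ≤ (s + b + 1 + 1) ^ M := Nat.pow_le_pow_left (by omega) M
      have h4 : b * (s + b + 1) ^ M ≤ b * (s + b + 1 + 1) ^ M := Nat.mul_le_mul_left b h3
      have h5 : (b + 1) * (s + (b + 1) + 1) ^ M =
          b * (s + b + 1 + 1) ^ M + (s + b + 1 + 1) ^ M := by
        have : s + (b + 1) + 1 = s + b + 1 + 1 := by omega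
        rw [this]
        ring
      rw [h1, h5]
      omega

theorem hh_diff2 (N s a b : ℕ) :
    hh N (s + a + b) + hh N s ≤ hh N (s + a) + hh N (s + b) +
      a * b * (s + a + b + 1) ^ (N - 2) := by
  rcases N with _ | M
  · simp only [hh_zero]
    omega
  · induction a with
    | zero => simp [Nat.add_comm]
    | succ a ih =>
      have h1 : hh (M + 1) (s + (a + 1) + b) = hh (M + 1) (s + a + b) + hh M (s + a + 1 + b) := by
        have h := hh_succ M (s + a + b)
        have h' : s + (a + 1) + b = s + a + b + 1 := by omega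
        have h'' : s + a + 1 + b = s + a + b + 1 := by omega
        rw [h', h'', h]
      have h2 : hh (M + 1) (s + (a + 1)) = hh (M + 1) (s + a) + hh M (s + a + 1) :=
        hh_succ M (s + a)
      have h3 := hh_diff M (s + a + 1) b
      have h4 : M + 1 - 2 = M - 1 := by omega
      rw [h4] at ih ⊢
      have h5 : (s + a + b + 1) ^ (M - 1) ≤ (s + a + 1 + b + 1) ^ (M - 1) :=
        Nat.pow_le_pow_left (by omega) _
      have h6 : a * b * (s + a + b + 1) ^ (M - 1) ≤ a * b * (s + a + 1 + b + 1) ^ (M - 1) :=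
        Nat.mul_le_mul_left _ h5
      have h7 : (a + 1) * b * (s + (a + 1) + b + 1) ^ (M - 1) =
          a * b * (s + a + 1 + b + 1) ^ (M - 1) + b * (s + a + 1 + b + 1) ^ (M - 1) := by
        have : s + (a + 1) + b + 1 = s + a + 1 + b + 1 := by omega
        rw [this]
        ring
      rw [h1, h2, h7]
      omega

/-! ### linear algebra -/

section

variable {N : ℕ} {k : Type} [Field k]

theorem mem_V {t : ℕ} {q : Po N k} :
    q ∈ restrictTotalDegree (Fin N) k t ↔ q.totalDegree ≤ t := mem_restrictTotalDegree _ _ _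

theorem mulLeft_inj {S : Po N k} (hS : S ≠ 0) : Function.Injective (LinearMap.mulLeft k S) := by
  intro x y hxy
  exact mul_left_cancel₀ hS hxy

theorem finrank_mul (hRTD : T_RTD) {S : Po N k} (hS : S ≠ 0) (s : ℕ) :
    Module.finrank k ((restrictTotalDegree (Fin N) k s).map (LinearMap.mulLeft k S)) =
      hh N s := by
  have h1 : Module.finrank k (restrictTotalDegree (Fin N) k s) = hh N s := (hRTD N k s).2
  rw [← h1]
  exact (LinearEquiv.finrank_eq (Submodule.equivMapOfInjective (LinearMap.mulLeft k S)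
    (mulLeft_inj hS) (restrictTotalDegree (Fin N) k s))).symm

theorem inf_le {S S' : Po N k} (hS' : S' ≠ 0) (hrel : IsRelPrime S S') (s : ℕ) :
    (restrictTotalDegree (Fin N) k (s + S'.totalDegree)).map (LinearMap.mulLeft k S) ⊓
      (restrictTotalDegree (Fin N) k (s + S.totalDegree)).map (LinearMap.mulLeft k S') ≤
    (restrictTotalDegree (Fin N) k s).map (LinearMap.mulLeft k (S * S')) := by
  rintro x ⟨⟨u, hu, hux⟩, ⟨w, hw, hwx⟩⟩
  rw [SetLike.mem_coe, mem_V] at hu hw
  have h1 : S * u = x := hux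
  have h2 : S' * w = x := hwx
  have h3 : S' ∣ S * u := ⟨w, by rw [h1, h2]⟩
  have h4 : S' ∣ u := hrel.symm.dvd_of_dvd_mul_left h3
  obtain ⟨u', hu'⟩ := h4
  refine ⟨u', ?_, ?_⟩
  · rw [SetLike.mem_coe, mem_V]
    rcases eq_or_ne u' 0 with h0 | h0
    · rw [h0, totalDegree_zero]
      exact Nat.zero_le _
    · have h5 : u.totalDegree = S'.totalDegree + u'.totalDegree := by
        rw [hu', totalDegree_mul_of_isDomain hS' h0]
      omega
  · show S * S' * u' = x
    rw [← h1, hu', mul_assoc]

theorem Hf_add_le (I : Ideal (Po N k)) (hRTD : T_RTD) (t : ℕ) (U : Submodule k (Po N k))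
    (hU1 : U ≤ restrictTotalDegree (Fin N) k t) (hU2 : ∀ x ∈ U, x ∈ I) :
    Hf I t + Module.finrank k U ≤ hh N t := by
  have hfin : Module.Finite k (restrictTotalDegree (Fin N) k t) := (hRTD N k t).1
  set φ : restrictTotalDegree (Fin N) k t →ₗ[k] (Po N k ⧸ I) :=
    (Ideal.Quotient.mkₐ k I).toLinearMap.comp (Submodule.subtype _) with hφ
  have h1 : Hf I t = Module.finrank k (LinearMap.range φ) := by
    rw [Hf, hφ, LinearMap.range_comp, Submodule.range_subtype]
  have h2 := LinearMap.finrank_range_add_finrank_ker φ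
  rw [(hRTD N k t).2, ← h1] at h2
  have h3 : Module.finrank k U ≤ Module.finrank k (LinearMap.ker φ) := by
    have h4 : U ≤ (LinearMap.ker φ).map (restrictTotalDegree (Fin N) k t).subtype := by
      intro x hx
      refine ⟨⟨x, hU1 hx⟩, ?_, rfl⟩
      rw [SetLike.mem_coe, LinearMap.mem_ker]
      change Ideal.Quotient.mk I x = 0
      rw [Ideal.Quotient.eq_zero_iff_mem]
      exact hU2 x hx
    have h5 : Module.finrank k ((LinearMap.ker φ).map
        (restrictTotalDegree (Fin N) k t).subtype) = Module.finrank k (LinearMap.ker φ) :=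
      Submodule.finrank_map_subtype_eq _ _
    rw [← h5]
    exact Submodule.finrank_mono h4
  have h6 : hh N t = (t + N).choose N := rfl
  omega

theorem main (hRTD : T_RTD) (I : Ideal (Po N k)) {S S' : Po N k} (hSI : S ∈ I) (hSI' : S' ∈ I)
    (hS : S ≠ 0) (hS' : S' ≠ 0) (hrel : IsRelPrime S S') (s : ℕ) :
    Hf I (s + S.totalDegree + S'.totalDegree) ≤ S.totalDegree * S'.totalDegree *
      (s + S.totalDegree + S'.totalDegree + 1) ^ (N - 2) := by
  have hf : ∀ (q : Po N k) (r : ℕ), Module.Finite k
      ((restrictTotalDegree (Fin N) k r).map (LinearMap.mulLeft k q)) := by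
    intro q r
    have := (hRTD N k r).1
    infer_instance
  have i1 := hf S (s + S'.totalDegree)
  have i2 := hf S' (s + S.totalDegree)
  have i3 := hf (S * S') s
  have h1 := Submodule.finrank_sup_add_finrank_inf_eq
    ((restrictTotalDegree (Fin N) k (s + S'.totalDegree)).map (LinearMap.mulLeft k S))
    ((restrictTotalDegree (Fin N) k (s + S.totalDegree)).map (LinearMap.mulLeft k S'))
  rw [finrank_mul hRTD hS, finrank_mul hRTD hS'] at h1
  have h2 := Submodule.finrank_mono (inf_le hS' hrel s)
  rw [finrank_mul hRTD (mul_ne_zero hS hS')] at h2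
  have h3 := Hf_add_le I hRTD (s + S.totalDegree + S'.totalDegree)
    ((restrictTotalDegree (Fin N) k (s + S'.totalDegree)).map (LinearMap.mulLeft k S) ⊔
      (restrictTotalDegree (Fin N) k (s + S.totalDegree)).map (LinearMap.mulLeft k S'))
    (by
      apply sup_le
      · rintro x ⟨u, hu, rfl⟩
        rw [SetLike.mem_coe, mem_V] at hu
        rw [mem_V]
        exact (totalDegree_mul S u).trans (by omega)
      · rintro x ⟨u, hu, rfl⟩
        rw [SetLike.mem_coe, mem_V] at hu
        rw [mem_V]
        exact (totalDegree_mul S' u).trans (by omega))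
    (by
      intro x hx
      obtain ⟨y, hy, z, hz, rfl⟩ := Submodule.mem_sup.1 hx
      obtain ⟨u, _, rfl⟩ := hy
      obtain ⟨w, _, rfl⟩ := hz
      exact I.add_mem (I.mul_mem_right u hSI) (I.mul_mem_right w hSI'))
  have h4 := hh_diff2 N s S.totalDegree S'.totalDegree
  omega

end

theorem pf_HF2 (hRTD : T_RTD) : T_HF2 := by
  intro N k _ I S S' hSI hSI' hS hS' hrel
  refine ⟨S.totalDegree * S'.totalDegree + hh N (S.totalDegree + S'.totalDegree), fun t => ?_⟩
  have hp : 1 ≤ (t + 1) ^ (N - 2) := Nat.one_le_pow _ _ (Nat.succ_pos t)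
  rcases Nat.lt_or_ge t (S.totalDegree + S'.totalDegree) with h | h
  · have h1 := Hf_add_le I hRTD t ⊥ bot_le (by
      intro x hx
      rw [Submodule.mem_bot] at hx
      rw [hx]
      exact I.zero_mem)
    have h2 := hh_mono N h.le
    calc Hf I t ≤ hh N (S.totalDegree + S'.totalDegree) := by omega
      _ ≤ (S.totalDegree * S'.totalDegree + hh N (S.totalDegree + S'.totalDegree)) * 1 := by
        omega
      _ ≤ _ := Nat.mul_le_mul_left _ hp
  · obtain ⟨s, hs⟩ := Nat.exists_eq_add_of_le h
    have h1 := main hRTD I hSI hSI' hS hS' hrel s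
    have h2 : s + S.totalDegree + S'.totalDegree = t := by omega
    rw [h2] at h1
    exact h1.trans (Nat.mul_le_mul_right _ (Nat.le_add_right _ _))

end Pool.Agent.H77.HIT
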