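import Pool.Agent.H18.HIT.Targets

/-!
# The number of preimages under an iterate
-/

open MvPolynomial
open Pool.Agent.H12.ZD (pmap v O Res DenseOrbit NoInv)
open Pool.Agent.H18.HIT

namespace Pool.Agent.H77.HIT

/-- composition with an iterate is injective -/
theorem it_injective {N : ℕ} {k : Type} [Field k] {f : Tup N k}
    (hf : Function.Injective (aeval f : Po N k →ₐ[k] Po N k)) (n : ℕ) :
    Function.Injective (aeval (it f n) : Po N k →ₐ[k] Po N k) := by
  induction n with
  | zero =>
    intro a b hab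
    rw [it_zero, aeval_X_left_apply, aeval_X_left_apply] at hab
    exact hab
  | succ n ih =>
    intro a b hab
    rw [aeval_it_succ, aeval_it_succ] at hab
    exact hf (ih hab)

theorem cov_it (hELM : T_ELM) {N : ℕ} {k : Type} [Field k] {f : Tup N k} {e : ℕ}
    (hf : Function.Injective (aeval f : Po N k →ₐ[k] Po N k)) (hc : Cov f e) (n : ℕ) :
    Cov (it f n) (e ^ n) := by
  classical
  induction n with
  | zero =>
    refine ⟨1, one_ne_zero, fun y _ => ⟨{y}, by simp, ?_⟩⟩
    intro x hx
    rw [Finset.mem_singleton] at hx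
    rw [it_zero, pmap_X, hx]
  | succ n ih =>
    obtain ⟨c, hc0, hcov⟩ := hc
    obtain ⟨cn, hcn0, hcovn⟩ := ih
    obtain ⟨c', hc'0, q, hq⟩ := hELM N k (it f n) (it_injective hf n) c hc0
    refine ⟨cn * c', mul_ne_zero hcn0 hc'0, fun y hy => ?_⟩
    rw [map_mul] at hy
    obtain ⟨S, hScard, hS⟩ := hcovn y (left_ne_zero_of_mul hy)
    have hw : ∀ w ∈ S, eval w c ≠ 0 := by
      intro w hw1
      have h1 : eval w (aeval (it f n) c') = eval y c' := by
        rw [eval_aeval, hS w hw1]
      rw [hq, map_mul] at h1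
      have h2 : eval w c * eval w q ≠ 0 := by
        rw [h1]
        exact right_ne_zero_of_mul hy
      exact left_ne_zero_of_mul h2
    have hT : ∀ w : Fin N → k, ∃ T : Finset (Fin N → k), w ∈ S →
        T.card = e ∧ ∀ x ∈ T, pmap f x = w := by
      intro w
      by_cases h : w ∈ S
      · obtain ⟨T, hT1, hT2⟩ := hcov w (hw w h)
        exact ⟨T, fun _ => ⟨hT1, hT2⟩⟩
      · exact ⟨∅, fun h' => absurd h' h⟩
    choose T hT using hT
    refine ⟨S.biUnion T, ?_, ?_⟩
    · rw [Finset.card_biUnion]
      · rw [Finset.sum_congr rfl (fun w hw1 => (hT w hw1).1), Finset.sum_const, hScard,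
          smul_eq_mul, pow_succ]
      · intro w hw1 w' hw1' hne
        show Disjoint (T w) (T w')
        rw [Finset.disjoint_left]
        intro x hx hx'
        exact hne (((hT w hw1).2 x hx).symm.trans ((hT w' hw1').2 x hx'))
    · intro x hx
      rw [Finset.mem_biUnion] at hx
      obtain ⟨w, hw1, hx1⟩ := hx
      rw [it_succ', pmap_comp, (hT w hw1).2 x hx1, hS w hw1]

theorem pf_CNT (hELM : T_ELM) : T_CNT := by
  intro N k _ _ f e n hf hc
  exact cov_it hELM hf hc n

end Pool.Agent.H77.HIT
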