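import Pool.Agent.H18.HIT.Targets

/-!
# Every nonzero polynomial divides a nonzero polynomial in an algebraically independent tuple
-/

open MvPolynomial
open Pool.Agent.H18.HIT

namespace Pool.Agent.H77.HIT

theorem pf_ELM : T_ELM := by
  intro N k _ f hf c hc
  have hai : AlgebraicIndependent k f := hf
  have htr : Algebra.trdeg k (Po N k) ≤ Cardinal.mk (Fin N) := by
    have h1 : Algebra.trdeg k (Po N k) = Cardinal.lift.{0} (Cardinal.mk (Fin N)) :=
      MvPolynomial.trdeg_of_isDomain
    rw [h1, Cardinal.lift_id]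
  have hb : IsTranscendenceBasis k f := hai.isTranscendenceBasis_of_trdeg_le_of_finite htr
  have hal := hb.isAlgebraic
  have h2 : IsAlgebraic (Algebra.adjoin k (Set.range f)) c := hal.isAlgebraic c
  obtain ⟨r, hr0, hr⟩ := h2.exists_nonzero_dvd (mem_nonZeroDivisors_of_ne_zero hc)
  have hr1 : (r : Po N k) ∈ (aeval f : Po N k →ₐ[k] Po N k).range := by
    rw [← Algebra.adjoin_range_eq_range_aeval]
    exact r.2
  obtain ⟨c', hc'⟩ := hr1
  refine ⟨c', ?_, ?_⟩
  · intro h0
    apply hr0
    apply Subtype.ext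
    have h3 : (aeval f : Po N k →ₐ[k] Po N k) c' = (r : Po N k) := hc'
    rw [← h3, h0, map_zero]
    rfl
  · have h3 : (aeval f : Po N k →ₐ[k] Po N k) c' = (r : Po N k) := hc'
    rw [h3]
    exact hr

end Pool.Agent.H77.HIT
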