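import Pool.Agent.H18.HIT.Targets

/-!
# Integral equations for the coordinates over the subalgebra generated by a tuple
-/

open MvPolynomial
open Pool.Agent.H18.HIT

namespace Pool.Agent.H77.HIT

/-- every element satisfies a nonzero equation with coefficients in the image of `aeval f` -/
theorem exists_equation {N : ℕ} {k : Type} [Field k] (f : Tup N k)
    (hf : Function.Injective (aeval f : Po N k →ₐ[k] Po N k)) (c : Po N k) :
    ∃ Q : Polynomial (Po N k), 1 ≤ Q.natDegree ∧ ev2 f c Q = 0 := by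
  have hai : AlgebraicIndependent k f := hf
  have htr : Algebra.trdeg k (Po N k) ≤ Cardinal.mk (Fin N) := by
    have h1 : Algebra.trdeg k (Po N k) = Cardinal.lift.{0} (Cardinal.mk (Fin N)) :=
      MvPolynomial.trdeg_of_isDomain
    rw [h1, Cardinal.lift_id]
  have hb : IsTranscendenceBasis k f := hai.isTranscendenceBasis_of_trdeg_le_of_finite htr
  have hal := hb.isAlgebraic
  have h2 : IsAlgebraic (Algebra.adjoin k (Set.range f)) c := hal.isAlgebraic c
  obtain ⟨P, hP0, hP⟩ := h2
  have hmem : ∀ q : Po N k, (aeval f : Po N k →ₐ[k] Po N k) q ∈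
      Algebra.adjoin k (Set.range f) := by
    intro q
    rw [Algebra.adjoin_range_eq_range_aeval]
    exact ⟨q, rfl⟩
  have hsur : Function.Surjective
      ((aeval f : Po N k →ₐ[k] Po N k).codRestrict (Algebra.adjoin k (Set.range f)) hmem) := by
    intro r
    have hr : (r : Po N k) ∈ (aeval f : Po N k →ₐ[k] Po N k).range := by
      rw [← Algebra.adjoin_range_eq_range_aeval]
      exact r.2
    obtain ⟨q, hq⟩ := hr
    exact ⟨q, Subtype.ext hq⟩
  obtain ⟨Q, hQ⟩ := Polynomial.map_surjective ((aeval f : Po N k →ₐ[k] Po N k).codRestrict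
    (Algebra.adjoin k (Set.range f)) hmem).toRingHom hsur P
  have hQev : ev2 f c Q = 0 := by
    rw [← hQ, Polynomial.aeval_def, Polynomial.eval₂_map] at hP
    exact hP
  refine ⟨Q, ?_, hQev⟩
  by_contra hdeg
  have h0 : Q.natDegree = 0 := by omega
  have h1 : Q = Polynomial.C (Q.coeff 0) := Polynomial.eq_C_of_natDegree_eq_zero h0
  rw [h1, ev2_C] at hQev
  have h3 : Q.coeff 0 = 0 := by
    apply hf
    rw [hQev, map_zero]
  rw [h3, map_zero] at h1
  rw [h1, Polynomial.map_zero] at hQ
  exact hP0 hQ.symm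

theorem pf_IGC : T_IGC := by
  classical
  intro N k _ G hG
  choose Q hQ1 hQ2 using fun i : Fin N => exists_equation G hG (X i)
  have hlc : ∀ i, (Q i).leadingCoeff ≠ 0 := by
    intro i h
    rw [Polynomial.leadingCoeff_eq_zero] at h
    have h1 := hQ1 i
    rw [h, Polynomial.natDegree_zero] at h1
    omega
  have hpr : ∀ i, (∏ j ∈ Finset.univ.erase i, (Q j).leadingCoeff) ≠ 0 := fun i =>
    Finset.prod_ne_zero_iff.2 fun j _ => hlc j
  refine ⟨∏ i, (Q i).leadingCoeff, Finset.prod_ne_zero_iff.2 fun i _ => hlc i, fun i => ?_⟩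
  refine ⟨Polynomial.C (∏ j ∈ Finset.univ.erase i, (Q j).leadingCoeff) * Q i, 1, ?_, ?_, ?_⟩
  · rw [Polynomial.leadingCoeff_mul, Polynomial.leadingCoeff_C, pow_one]
    exact Finset.prod_erase_mul _ _ (Finset.mem_univ i)
  · rw [Polynomial.natDegree_C_mul (hpr i)]
    exact hQ1 i
  · rw [ev2_mul, hQ2 i, mul_zero]

end Pool.Agent.H77.HIT
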